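import Pool.Agent.N594.CT.Stm

/-!
Project CT, part VAR: averages over a random sample (second moment).
-/

set_option autoImplicit false

open Finset

noncomputable section

namespace Pool.Agent.N738.CT.VAR

open Pool.Agent.N594.CT

variable {V : Type} [Fintype V] [Nonempty V] {l s : ℕ}

/-- The mean. -/
def Fm (f : V → (Fin l → V) → ℝ) (w : V) : ℝ :=
  (∑ z : Fin l → V, f w z) / (Fintype.card V : ℝ) ^ l

/-- The difference. -/
def gy (f : V → (Fin l → V) → ℝ) (i : Fin s) (y : Fin l → Fin s) (S : Fin s → V) : ℝ :=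
  f (S i) (fun j => S (y j)) - Fm f (S i)

lemma card_pos' : (0 : ℝ) < Fintype.card V := by
  exact_mod_cast Fintype.card_pos

omit [Nonempty V] in
lemma card_fun' : (Fintype.card (Fin l → V) : ℝ) = (Fintype.card V : ℝ) ^ l := by
  rw [Fintype.card_fun, Fintype.card_fin]
  push_cast
  rfl

lemma Fm_mem (f : V → (Fin l → V) → ℝ) (h0 : ∀ w z, 0 ≤ f w z) (h1 : ∀ w z, f w z ≤ 1) (w : V) :
    0 ≤ Fm f w ∧ Fm f w ≤ 1 := by
  have hc := card_pos' (V := V)
  unfold Fm
  refine ⟨div_nonneg (Finset.sum_nonneg fun z _ => h0 w z) (by positivity), ?_⟩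
  rw [div_le_one (by positivity), ← card_fun']
  calc ∑ z : Fin l → V, f w z ≤ ∑ _z : Fin l → V, (1 : ℝ) := Finset.sum_le_sum fun z _ => h1 w z
    _ = Fintype.card (Fin l → V) := by simp

lemma gy_abs (f : V → (Fin l → V) → ℝ) (h0 : ∀ w z, 0 ≤ f w z) (h1 : ∀ w z, f w z ≤ 1)
    (i : Fin s) (y : Fin l → Fin s) (S : Fin s → V) : |gy f i y S| ≤ 1 := by
  obtain ⟨h2, h3⟩ := Fm_mem f h0 h1 (S i)
  have h4 := h0 (S i) (fun j => S (y j))
  have h5 := h1 (S i) (fun j => S (y j))
  unfold gy
  rw [abs_le]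
  constructor <;> linarith

/-- Exchange of the values at the points `y j`. -/
def ex (y : Fin l → Fin s) (p : (Fin s → V) × (Fin l → V)) : (Fin s → V) × (Fin l → V) :=
  (Function.extend y p.2 p.1, fun j => p.1 (y j))

omit [Fintype V] [Nonempty V] in
lemma ex_inv {y : Fin l → Fin s} (hy : Function.Injective y) :
    Function.Involutive (ex (V := V) y) := by
  rintro ⟨S, z⟩
  unfold ex
  refine Prod.ext ?_ ?_
  · funext a
    show Function.extend y (fun j => S (y j)) (Function.extend y z S) a = S a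
    by_cases h : ∃ j, y j = a
    · obtain ⟨j, rfl⟩ := h
      rw [hy.extend_apply]
    · rw [Function.extend_apply' _ _ _ h, Function.extend_apply' _ _ _ h]
  · funext j
    show Function.extend y z S (y j) = z j
    rw [hy.extend_apply]

/-- The expectation of the product for a good pair. -/
lemma zero_sum (f : V → (Fin l → V) → ℝ) (i : Fin s) {y y' : Fin l → Fin s}
    (hy : Function.Injective y) (hi : ∀ a, y a ≠ i) (hd : ∀ a b, y a ≠ y' b) :
    ∑ S : Fin s → V, gy f i y S * gy f i y' S = 0 := by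
  classical
  have hc := card_pos' (V := V)
  have h1 : ∑ p : (Fin s → V) × (Fin l → V), gy f i y p.1 * gy f i y' p.1 = 0 := by
    rw [← Equiv.sum_comp (Function.Involutive.toPerm (ex y) (ex_inv (V := V) hy))
      (fun p : (Fin s → V) × (Fin l → V) => gy f i y p.1 * gy f i y' p.1),
      Fintype.sum_prod_type]
    refine Finset.sum_eq_zero fun S _ => ?_
    have h2 : ∀ z : Fin l → V,
        gy f i y (((Function.Involutive.toPerm (ex y) (ex_inv (V := V) hy)) (S, z)).1) *
          gy f i y' (((Function.Involutive.toPerm (ex y) (ex_inv (V := V) hy)) (S, z)).1) =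
        (f (S i) z - Fm f (S i)) * gy f i y' S := by
      intro z
      have e : ((Function.Involutive.toPerm (ex y) (ex_inv (V := V) hy)) (S, z)).1 = Function.extend y z S := rfl
      have ei : Function.extend y z S i = S i :=
        Function.extend_apply' _ _ _ (by rintro ⟨a, ha⟩; exact hi a ha)
      have ey : (fun j => Function.extend y z S (y j)) = z := by
        funext j
        rw [hy.extend_apply]
      have ey' : (fun j => Function.extend y z S (y' j)) = fun j => S (y' j) := by
        funext j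
        exact Function.extend_apply' _ _ _ (by rintro ⟨a, ha⟩; exact hd a j ha)
      rw [e]
      unfold gy
      rw [ei, ey, ey']
    simp only [h2]
    rw [← Finset.sum_mul, Finset.sum_sub_distrib]
    have h3 : ∑ _z : Fin l → V, Fm f (S i) = ∑ z : Fin l → V, f (S i) z := by
      rw [Finset.sum_const, Finset.card_univ, nsmul_eq_mul, card_fun']
      unfold Fm
      field_simp
    rw [h3, sub_self, zero_mul]
  rw [Fintype.sum_prod_type] at h1
  simp only [Finset.sum_const, Finset.card_univ, nsmul_eq_mul] at h1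
  rw [← Finset.mul_sum, card_fun'] at h1
  exact (mul_eq_zero.1 h1).resolve_left (by positivity)

/-- The functions which are compared with the value at `a`. -/
def co (i : Fin s) (o : Option (Fin l ⊕ Fin l)) (p : (Fin l → Fin s) × (Fin l → Fin s)) : Fin s :=
  match o with
  | none => i
  | some (Sum.inl b) => p.1 b
  | some (Sum.inr b) => p.2 b

/-- The bad pairs. -/
def Bad (i : Fin s) (p : (Fin l → Fin s) × (Fin l → Fin s)) : Prop :=
  ∃ (a : Fin l) (o : Option (Fin l ⊕ Fin l)), o ≠ some (Sum.inl a) ∧ p.1 a = co i o p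

lemma cnt (a : Fin l) (c : (Fin l → Fin s) × (Fin l → Fin s) → Fin s)
    (hc : ∀ p x, c (Function.update p.1 a x, p.2) = c p)
    (A : Finset ((Fin l → Fin s) × (Fin l → Fin s))) (hA : ∀ p ∈ A, p.1 a = c p) :
    A.card * s ≤ s ^ l * s ^ l := by
  classical
  have h1 : (A ×ˢ (Finset.univ : Finset (Fin s))).card ≤
      (Finset.univ : Finset ((Fin l → Fin s) × (Fin l → Fin s))).card := by
    refine Finset.card_le_card_of_injOn (fun q => (Function.update q.1.1 a q.2, q.1.2))
      (fun _ _ => Finset.mem_coe.2 (Finset.mem_univ _)) ?_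
    rintro ⟨⟨y, y'⟩, x⟩ hq ⟨⟨w, w'⟩, x'⟩ hq' he
    have hp := hA _ (Finset.mem_product.1 (Finset.mem_coe.1 hq)).1
    have hp' := hA _ (Finset.mem_product.1 (Finset.mem_coe.1 hq')).1
    simp only [Prod.mk.injEq] at he
    obtain ⟨h2, h3⟩ := he
    subst h3
    have hx : x = x' := by
      have := congrFun h2 a
      rwa [Function.update_self, Function.update_self] at this
    subst hx
    have hcc : c (y, y') = c (w, y') := by
      have e1 := hc (y, y') x
      have e2 := hc (w, y') x
      simp only at e1 e2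
      rw [← e1, ← e2, h2]
    have hyw : y = w := by
      funext b
      by_cases hb : b = a
      · subst hb
        simp only at hp hp'
        rw [hp, hp', hcc]
      · have := congrFun h2 b
        rwa [Function.update_of_ne hb, Function.update_of_ne hb] at this
    rw [hyw]
  rw [Finset.card_product, Finset.card_univ, Finset.card_univ, Fintype.card_prod,
    Fintype.card_fun, Fintype.card_fin, Fintype.card_fin] at h1
  exact h1

lemma bad_card (i : Fin s) (B : Finset ((Fin l → Fin s) × (Fin l → Fin s)))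
    (hB : ∀ p ∈ B, Bad i p) : B.card * s ≤ 3 * l ^ 2 * (s ^ l * s ^ l) := by
  classical
  let T : Finset (Fin l × Option (Fin l ⊕ Fin l)) :=
    Finset.univ.filter fun q => q.2 ≠ some (Sum.inl q.1)
  have h1 : B ⊆ T.biUnion fun q => B.filter fun p => p.1 q.1 = co i q.2 p := by
    intro p hp
    obtain ⟨a, o, ho, h⟩ := hB p hp
    rw [Finset.mem_biUnion]
    exact ⟨(a, o), Finset.mem_filter.2 ⟨Finset.mem_univ _, ho⟩, Finset.mem_filter.2 ⟨hp, h⟩⟩
  have h2 : B.card ≤ ∑ q ∈ T, (B.filter fun p => p.1 q.1 = co i q.2 p).card :=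
    (Finset.card_le_card h1).trans Finset.card_biUnion_le
  have h3 : ∀ q ∈ T, (B.filter fun p => p.1 q.1 = co i q.2 p).card * s ≤ s ^ l * s ^ l := by
    rintro ⟨a, o⟩ hq
    have hq' : o ≠ some (Sum.inl a) := (Finset.mem_filter.1 hq).2
    refine cnt a (co i o) ?_ _ fun p hp => (Finset.mem_filter.1 hp).2
    rintro ⟨y, y'⟩ x
    match o, hq' with
    | none, _ => rfl
    | some (Sum.inl b), hb =>
      show Function.update y a x b = y b
      rw [Function.update_of_ne]
      rintro rfl
      exact hb rfl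
    | some (Sum.inr b), _ => rfl
  have h4 : T.card ≤ 3 * l ^ 2 := by
    have h5 : T.card ≤ (Finset.univ : Finset (Fin l × Option (Fin l ⊕ Fin l))).card :=
      Finset.card_le_card (Finset.filter_subset _ _)
    rw [Finset.card_univ, Fintype.card_prod, Fintype.card_option, Fintype.card_sum,
      Fintype.card_fin] at h5
    rcases Nat.eq_zero_or_pos l with h | h
    · subst h
      simpa using h5
    · nlinarith
  calc B.card * s ≤ (∑ q ∈ T, (B.filter fun p => p.1 q.1 = co i q.2 p).card) * s :=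
        Nat.mul_le_mul_right _ h2
    _ = ∑ q ∈ T, (B.filter fun p => p.1 q.1 = co i q.2 p).card * s := Finset.sum_mul _ _ _
    _ ≤ ∑ _q ∈ T, s ^ l * s ^ l := Finset.sum_le_sum h3
    _ = T.card * (s ^ l * s ^ l) := by rw [Finset.sum_const, smul_eq_mul]
    _ ≤ _ := Nat.mul_le_mul_right _ h4

/-- The second moment. -/
lemma second (f : V → (Fin l → V) → ℝ) (h0 : ∀ w z, 0 ≤ f w z) (h1 : ∀ w z, f w z ≤ 1)
    (i : Fin s) : (∑ S : Fin s → V, (∑ y : Fin l → Fin s, gy f i y S) ^ 2) * s
      ≤ 3 * (l : ℝ) ^ 2 * ((s : ℝ) ^ l * (s : ℝ) ^ l) * (Fintype.card V : ℝ) ^ s := by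
  classical
  have hc := card_pos' (V := V)
  have e1 : ∑ S : Fin s → V, (∑ y : Fin l → Fin s, gy f i y S) ^ 2 =
      ∑ p : (Fin l → Fin s) × (Fin l → Fin s), ∑ S : Fin s → V, gy f i p.1 S * gy f i p.2 S := by
    rw [Finset.sum_comm]
    refine Finset.sum_congr rfl fun S _ => ?_
    rw [sq, Finset.sum_mul_sum, Fintype.sum_prod_type]
  have e2 : ∑ p : (Fin l → Fin s) × (Fin l → Fin s), ∑ S : Fin s → V,
      gy f i p.1 S * gy f i p.2 S ≤ ∑ p : (Fin l → Fin s) × (Fin l → Fin s),
        if Bad i p then (Fintype.card V : ℝ) ^ s else 0 := by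
    refine Finset.sum_le_sum fun p _ => ?_
    split_ifs with hb
    · rw [← card_fun' (l := s)]
      calc ∑ S : Fin s → V, gy f i p.1 S * gy f i p.2 S ≤ ∑ _S : Fin s → V, (1 : ℝ) := by
            refine Finset.sum_le_sum fun S _ => ?_
            refine (le_abs_self _).trans ?_
            rw [abs_mul]
            exact mul_le_one₀ (gy_abs f h0 h1 i _ S) (abs_nonneg _) (gy_abs f h0 h1 i _ S)
        _ = Fintype.card (Fin s → V) := by simp
    · refine le_of_eq (zero_sum f i ?_ ?_ ?_)
      · intro a b hab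
        by_contra hne
        exact hb ⟨a, some (Sum.inl b), by
          intro h
          have h' := Sum.inl.inj (Option.some.inj h)
          exact hne h'.symm, hab⟩
      · intro a ha
        exact hb ⟨a, none, by simp, ha⟩
      · intro a b hab
        exact hb ⟨a, some (Sum.inr b), by simp, hab⟩
  rw [← Finset.sum_filter, Finset.sum_const, nsmul_eq_mul] at e2
  have h3 := bad_card i (Finset.univ.filter fun p => Bad (l := l) i p)
    fun p hp => (Finset.mem_filter.1 hp).2
  have h4 : ((Finset.univ.filter fun p => Bad (l := l) i p).card : ℝ) * s ≤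
      3 * (l : ℝ) ^ 2 * ((s : ℝ) ^ l * (s : ℝ) ^ l) := by exact_mod_cast h3
  rw [e1]
  calc _ ≤ (((Finset.univ.filter fun p => Bad (l := l) i p).card : ℝ) *
          (Fintype.card V : ℝ) ^ s) * s := mul_le_mul_of_nonneg_right e2 (by positivity)
    _ = (((Finset.univ.filter fun p => Bad (l := l) i p).card : ℝ) * s) *
          (Fintype.card V : ℝ) ^ s := by ring
    _ ≤ _ := mul_le_mul_of_nonneg_right h4 (by positivity)

/-- **CT/VAR.** -/
theorem main : Pool.Agent.N594.CT.S_VAR := by
  intro V _ _ l s i f h0 h1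
  have hs : 0 < s := i.pos
  have hs' : (0 : ℝ) < s := by exact_mod_cast hs
  have hc := card_pos' (V := V)
  have e1 : ∀ S : Fin s → V, (∑ y : Fin l → Fin s, f (S i) (fun j => S (y j))) / (s : ℝ) ^ l -
      (∑ z : Fin l → V, f (S i) z) / (Fintype.card V : ℝ) ^ l =
      (∑ y : Fin l → Fin s, gy f i y S) / (s : ℝ) ^ l := by
    intro S
    have e2 : ∑ y : Fin l → Fin s, gy f i y S =
        (∑ y : Fin l → Fin s, f (S i) (fun j => S (y j))) - (s : ℝ) ^ l * Fm f (S i) := by
      unfold gy
      rw [Finset.sum_sub_distrib, Finset.sum_const, Finset.card_univ, nsmul_eq_mul,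
        Fintype.card_fun, Fintype.card_fin, Fintype.card_fin]
      push_cast
      rfl
    rw [e2, sub_div, mul_div_cancel_left₀ _ (pow_pos hs' l).ne']
    rfl
  simp only [e1]
  obtain ⟨X, hX⟩ : ∃ X : (Fin s → V) → ℝ, X = fun S => |(∑ y : Fin l → Fin s, gy f i y S) /
    (s : ℝ) ^ l| := ⟨_, rfl⟩
  have hXs : ∑ S : Fin s → V, |(∑ y : Fin l → Fin s, gy f i y S) / (s : ℝ) ^ l| =
      ∑ S : Fin s → V, X S := by rw [hX]
  rw [hXs]
  have hX0 : 0 ≤ ∑ S : Fin s → V, X S := by
    rw [hX]
    exact Finset.sum_nonneg fun S _ => abs_nonneg _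
  have hsq : ∑ S : Fin s → V, X S ^ 2 =
      (∑ S : Fin s → V, (∑ y : Fin l → Fin s, gy f i y S) ^ 2) / ((s : ℝ) ^ l * (s : ℝ) ^ l) := by
    rw [Finset.sum_div]
    refine Finset.sum_congr rfl fun S _ => ?_
    rw [hX]
    simp only
    rw [sq_abs, div_pow, sq ((s : ℝ) ^ l)]
  have h2 := second f h0 h1 i
  have h3 : ∑ S : Fin s → V, X S ^ 2 ≤ 3 * (l : ℝ) ^ 2 / s * (Fintype.card V : ℝ) ^ s := by
    rw [hsq, div_le_iff₀ (by positivity), div_mul_eq_mul_div, div_mul_eq_mul_div,
      le_div_iff₀ hs']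
    refine h2.trans (le_of_eq ?_)
    ring
  have h4 : (∑ S : Fin s → V, X S) ^ 2 ≤
      (Fintype.card V : ℝ) ^ s * ∑ S : Fin s → V, X S ^ 2 := by
    have h5 := sq_sum_le_card_mul_sum_sq (s := (Finset.univ : Finset (Fin s → V))) (f := X)
    rw [Finset.card_univ, card_fun' (l := s)] at h5
    exact h5
  rw [← pow_le_pow_iff_left₀ hX0 (by positivity) two_ne_zero]
  refine h4.trans ((mul_le_mul_of_nonneg_left h3 (by positivity)).trans ?_)
  rw [mul_pow, div_pow, Real.sq_sqrt hs'.le, mul_pow]
  have h6 : (Fintype.card V : ℝ) ^ s * (3 * (l : ℝ) ^ 2 / s * (Fintype.card V : ℝ) ^ s) =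
      3 * (l : ℝ) ^ 2 / s * ((Fintype.card V : ℝ) ^ s) ^ 2 := by ring
  rw [h6]
  refine mul_le_mul_of_nonneg_right ?_ (by positivity)
  refine div_le_div_of_nonneg_right ?_ hs'.le
  nlinarith [sq_nonneg (l : ℝ)]

end Pool.Agent.N738.CT.VAR

end
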